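import Pool.Agent.PQP.StmtsZ
import Pool.Agent.Helper25_PQP.GSM

/-!
# PQP KHL: the Hoelder bound for `K` (helper82)
-/

set_option autoImplicit false

open scoped InnerProductSpace Topology ContDiff Manifold
open MeasureTheory Filter Set

noncomputable section

namespace Pool.Agent.PQP.H82

open Pool.Agent.PQP Pool.Agent.Helper42_Paneitz Pool.Agent.Helper82_Vir Pool.Agent.FLX

theorem abs_log_sub_log {A B : ℝ} (hA : 0 < A) (hB : 0 < B) :
    |Real.log A - Real.log B| ≤ √|A - B| * (A ^ (-(1 / 2) : ℝ) + B ^ (-(1 / 2) : ℝ)) := by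
  wlog h : A ≤ B generalizing A B
  · rw [abs_sub_comm, abs_sub_comm A B, add_comm]
    exact this hB hA (le_of_not_ge h)
  have h1 : Real.log B - Real.log A ≤ √((B - A) / A) := by
    rw [← Real.log_div hB.ne' hA.ne']
    have : B / A = 1 + (B - A) / A := by
      field_simp
      ring
    rw [this]
    exact H25.log_one_add_le_sqrt (div_nonneg (by linarith) hA.le)
  have h2 : Real.log A ≤ Real.log B := Real.log_le_log hA h
  have h3 : √((B - A) / A) = √(B - A) * A ^ (-(1 / 2) : ℝ) := by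
    rw [Real.rpow_neg hA.le, ← Real.sqrt_eq_rpow, Real.sqrt_div (by linarith), div_eq_mul_inv]
  rw [abs_sub_comm, abs_of_nonneg (by linarith), abs_sub_comm A B, abs_of_nonneg (by linarith)]
  rw [h3] at h1
  refine h1.trans (mul_le_mul_of_nonneg_left ?_ (Real.sqrt_nonneg _))
  have : 0 ≤ B ^ (-(1 / 2) : ℝ) := Real.rpow_nonneg hB.le _
  linarith

theorem one_sub_inner_pos {x z : S4} (h : z ≠ x) : 0 < 1 - ⟪(x : E5), (z : E5)⟫_ℝ := by
  have hz : ‖(z : E5)‖ = 1 := mem_sphere_zero_iff_norm.1 z.2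
  have hx : ‖(x : E5)‖ = 1 := mem_sphere_zero_iff_norm.1 x.2
  have h1 : ‖(x : E5) - (z : E5)‖ ^ 2 = 2 * (1 - ⟪(x : E5), (z : E5)⟫_ℝ) := by
    rw [norm_sub_sq_real, hx, hz]
    ring
  have h2 : 0 < ‖(x : E5) - (z : E5)‖ := by
    rw [norm_pos_iff, sub_ne_zero]
    exact fun h' => h (Subtype.ext h'.symm)
  have h3 := pow_pos h2 2
  linarith

theorem abs_ell_sub {x y z : S4} (hx : z ≠ x) (hy : z ≠ y) :
    |ell x z - ell y z| ≤ √(dist x y) * ((1 - ⟪(x : E5), (z : E5)⟫_ℝ) ^ (-(1 / 2) : ℝ) +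
      (1 - ⟪(y : E5), (z : E5)⟫_ℝ) ^ (-(1 / 2) : ℝ)) := by
  have hA := one_sub_inner_pos hx
  have hB := one_sub_inner_pos hy
  have h := abs_log_sub_log hA hB
  have h1 : ell x z - ell y z = -(Real.log (1 - ⟪(x : E5), (z : E5)⟫_ℝ) -
      Real.log (1 - ⟪(y : E5), (z : E5)⟫_ℝ)) := by
    unfold ell
    ring
  rw [h1, abs_neg]
  refine h.trans (mul_le_mul_of_nonneg_right ?_
    (add_nonneg (Real.rpow_nonneg hA.le _) (Real.rpow_nonneg hB.le _)))
  apply Real.sqrt_le_sqrt
  have h2 : 1 - ⟪(x : E5), (z : E5)⟫_ℝ - (1 - ⟪(y : E5), (z : E5)⟫_ℝ) =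
      -⟪(x : E5) - (y : E5), (z : E5)⟫_ℝ := by
    rw [inner_sub_left]
    ring
  rw [h2, abs_neg]
  have h3 := abs_real_inner_le_norm ((x : E5) - (y : E5)) (z : E5)
  have hz : ‖(z : E5)‖ = 1 := mem_sphere_zero_iff_norm.1 z.2
  rw [hz, mul_one, ← dist_eq_norm] at h3
  exact h3

theorem ae_ne (x : S4) : ∀ᵐ z ∂sig, z ≠ x := by
  have h := sig_singleton x
  rw [ae_iff]
  simpa using h

/-- KHL -/
theorem khl (pow : PowStmt) (ker : KerStmt) : KhlStmt := by
  obtain ⟨C1, hC1, hpow⟩ := pow (1 / 2) (by norm_num)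
  obtain ⟨hi, -, C2, hC2, -, hker⟩ := ker
  have hm := msig_pos
  have hs : 0 < √msig := Real.sqrt_pos.2 hm
  refine ⟨C2 * √msig + 4 * C1 / (6 * msig), by positivity, ?_⟩
  intro f M hf hM
  have hM0 : 0 ≤ M := (abs_nonneg _).trans (hM (pt 0))
  have hN := N2_le_of_bound hf hM
  have hav : |avg f| ≤ M := by
    refine (abs_avg_le hf).trans ?_
    rw [div_le_iff₀ hs]
    linarith
  have hD0 : 0 ≤ 4 * C1 / (6 * msig) := by positivity
  constructor
  · intro x
    refine (hker f hf x).trans ?_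
    have h1 : C2 * N2 f ≤ C2 * (√msig * M) := mul_le_mul_of_nonneg_left hN hC2
    have h2 : 0 ≤ 4 * C1 / (6 * msig) * M := mul_nonneg hD0 hM0
    nlinarith
  · intro x y
    have hg : Continuous fun z => f z - avg f := hf.sub continuous_const
    have i1 : Integrable (fun z => ell x z * (f z - avg f)) sig := integrable_ell_mul (hi x) hg
    have i2 : Integrable (fun z => ell y z * (f z - avg f)) sig := integrable_ell_mul (hi y) hg
    have e1 : K f x - K f y = (∫ z, (ell x z - ell y z) * (f z - avg f) ∂sig) / (6 * msig) := by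
      unfold K
      rw [← sub_div, ← integral_sub i1 i2]
      congr 1
      refine integral_congr_ae (Eventually.of_forall fun z => ?_)
      show ell x z * (f z - avg f) - ell y z * (f z - avg f) = _
      ring
    have j1 := (hpow x).1
    have j2 := (hpow y).1
    have j : Integrable (fun z : S4 => √(dist x y) * ((1 - ⟪(x : E5), (z : E5)⟫_ℝ) ^ (-(1 / 2) : ℝ) +
      (1 - ⟪(y : E5), (z : E5)⟫_ℝ) ^ (-(1 / 2) : ℝ)) * (2 * M)) sig :=
      ((j1.add j2).const_mul _).mul_const _
    have h1 : |∫ z, (ell x z - ell y z) * (f z - avg f) ∂sig| ≤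
        √(dist x y) * (C1 + C1) * (2 * M) := by
      have h2 : ‖∫ z, (ell x z - ell y z) * (f z - avg f) ∂sig‖ ≤
          ∫ z : S4, √(dist x y) * ((1 - ⟪(x : E5), (z : E5)⟫_ℝ) ^ (-(1 / 2) : ℝ) +
            (1 - ⟪(y : E5), (z : E5)⟫_ℝ) ^ (-(1 / 2) : ℝ)) * (2 * M) ∂sig := by
        refine norm_integral_le_of_norm_le j ?_
        filter_upwards [ae_ne x, ae_ne y] with z hzx hzy
        rw [Real.norm_eq_abs, abs_mul]
        have h3 : |f z - avg f| ≤ 2 * M := by
          have := abs_sub (f z) (avg f)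
          have := hM z
          linarith
        have h4 := abs_ell_sub hzx hzy
        exact mul_le_mul h4 h3 (abs_nonneg _) ((abs_nonneg _).trans h4)
      rw [Real.norm_eq_abs] at h2
      refine h2.trans ?_
      rw [integral_mul_const, integral_const_mul, integral_add j1 j2]
      have := (hpow x).2
      have := (hpow y).2
      gcongr
    rw [e1, abs_div, abs_of_pos (by positivity : 0 < 6 * msig), div_le_iff₀ (by positivity)]
    refine h1.trans ?_
    have h5 : 4 * C1 / (6 * msig) * M * √(dist x y) * (6 * msig) = √(dist x y) * (C1 + C1) * (2 * M) := by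
      field_simp
      ring
    have h6 : 0 ≤ C2 * √msig * M * √(dist x y) * (6 * msig) := by positivity
    calc √(dist x y) * (C1 + C1) * (2 * M)
        ≤ C2 * √msig * M * √(dist x y) * (6 * msig) +
          4 * C1 / (6 * msig) * M * √(dist x y) * (6 * msig) := by rw [h5]; linarith
      _ = (C2 * √msig + 4 * C1 / (6 * msig)) * M * √(dist x y) * (6 * msig) := by ring

end Pool.Agent.PQP.H82
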