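import Pool.Agent.PQP.StmtsX

/-!
# PQP NOB: no concentration without smallness, for balanced densities (helper82)
-/

set_option autoImplicit false

open scoped InnerProductSpace Topology ContDiff Manifold
open MeasureTheory Filter Set

noncomputable section

namespace Pool.Agent.PQP.H82

open Pool.Agent.PQP Pool.Agent.Helper42_Paneitz Pool.Agent.Helper82_Vir Pool.Agent.FLX

theorem norm_tan_sq (z x : S4) :
    ‖(z : E5) - ⟪(z : E5), (x : E5)⟫_ℝ • (x : E5)‖ ^ 2 = 1 - ⟪(z : E5), (x : E5)⟫_ℝ ^ 2 := by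
  have hz : ‖(z : E5)‖ = 1 := by simpa using mem_sphere_zero_iff_norm.1 z.2
  have hx : ‖(x : E5)‖ = 1 := by simpa using mem_sphere_zero_iff_norm.1 x.2
  rw [norm_sub_sq_real, norm_smul, hz, real_inner_smul_right, mul_pow, hx, Real.norm_eq_abs, sq_abs]
  ring

theorem inner_le (z x : S4) : ⟪(z : E5), (x : E5)⟫_ℝ ≤ 1 ∧ -1 ≤ ⟪(z : E5), (x : E5)⟫_ℝ := by
  have hz : ‖(z : E5)‖ = 1 := by simpa using mem_sphere_zero_iff_norm.1 z.2
  have hx : ‖(x : E5)‖ = 1 := by simpa using mem_sphere_zero_iff_norm.1 x.2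
  have h := abs_real_inner_le_norm (z : E5) (x : E5)
  rw [hz, hx, one_mul] at h
  exact ⟨(abs_le.1 h).2, (abs_le.1 h).1⟩

theorem norm_tan_le (z x : S4) {R : ℝ} (h : 1 - ⟪(z : E5), (x : E5)⟫_ℝ ≤ R) :
    ‖(z : E5) - ⟪(z : E5), (x : E5)⟫_ℝ • (x : E5)‖ ≤ √(2 * R) := by
  apply Real.le_sqrt_of_sq_le
  rw [norm_tan_sq]
  obtain ⟨h1, h2⟩ := inner_le z x
  nlinarith

/-- NOB -/
theorem nob (h1 : CutStmt) (h2 : BlmStmt) : NobStmt := by
  intro G ε hG hε
  obtain ⟨C, hC, hcut⟩ := h1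
  have hq : 0 < ε / (6 * C * G) := by positivity
  obtain ⟨R, hR0, hR2, hRG⟩ : ∃ R : ℝ, 0 < R ∧ R ≤ 1 / 2 ∧ 3 * C * (G * √(2 * R)) ≤ ε / 2 := by
    refine ⟨min (1 / 2) ((ε / (6 * C * G)) ^ 2 / 2), lt_min (by norm_num) (by positivity),
      min_le_left _ _, ?_⟩
    have hs : √(2 * min (1 / 2) ((ε / (6 * C * G)) ^ 2 / 2)) ≤ ε / (6 * C * G) := by
      rw [Real.sqrt_le_left hq.le]
      have := min_le_right (1 / 2 : ℝ) ((ε / (6 * C * G)) ^ 2 / 2)
      linarith
    calc 3 * C * (G * √(2 * min (1 / 2) ((ε / (6 * C * G)) ^ 2 / 2)))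
        ≤ 3 * C * (G * (ε / (6 * C * G))) := by gcongr
      _ = ε / 2 := by field_simp; norm_num
  have hL : (1 : ℝ) ≤ 6 * C / ε + 1 := by
    have : 0 < 6 * C / ε := by positivity
    linarith
  have hL' : 6 * C / ε ≤ 6 * C / ε + 1 := by linarith
  generalize 6 * C / ε + 1 = L at hL hL'
  have hL0 : 0 < L := by linarith
  refine ⟨R * Real.exp (-L), by positivity, ?_⟩
  intro W f hW hS hB z
  obtain ⟨hWs, hW0, hWG⟩ := hW
  have hexp : Real.exp (-L) ≤ 1 / 2 := by
    rw [Real.exp_neg, ← one_div]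
    apply one_div_le_one_div_of_le (by norm_num)
    have := Real.add_one_le_exp L
    linarith
  have hlog : Real.log (R / (R * Real.exp (-L))) = L := by
    have : R / (R * Real.exp (-L)) = Real.exp L := by
      rw [Real.exp_neg]
      field_simp
    rw [this, Real.log_exp]
  have hc := hcut W f z (R * Real.exp (-L)) R (G * √(2 * R)) hWs hW0 hS (by positivity)
    (by nlinarith) (by linarith) (by positivity)
    (Or.inl fun x hx => (hWG x _).trans
      (mul_le_mul_of_nonneg_left (norm_tan_le z x hx) hG.le))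
  rw [hlog] at hc
  have hb := h2 f z R hS.1 hB hR0.le (by linarith)
  have hb' : mas f z R ≤ 2 / 3 := by
    refine hb.trans ?_
    rw [div_le_div_iff₀ (by linarith) (by norm_num)]
    linarith
  have hm0 : 0 ≤ mas f z (R * Real.exp (-L)) :=
    integral_nonneg fun x => (hS.1.2.1 x).le
  have h3 : mas f z (R * Real.exp (-L)) * (1 / 3) ≤ C * (1 / L + G * √(2 * R)) :=
    (mul_le_mul_of_nonneg_left (by linarith) hm0).trans hc
  have h4 : 3 * C * (1 / L) ≤ ε / 2 := by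
    rw [mul_one_div, div_le_iff₀ hL0]
    rw [div_le_iff₀ hε] at hL'
    linarith
  nlinarith

end Pool.Agent.PQP.H82
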